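import Pool.Agent.Y706.BI.Stm2
import Pool.Agent.Y706.B13

set_option autoImplicit false

/-! Families over number fields: points of bounded degree (job BI-FAM). -/

namespace Pool.Agent.Y681.BI

open Pool.Agent.Y706 Pool.Agent.Y706.BI
open Pool.Agent.H936R2 Pool.Agent.H927R2.RD H294UB Pool.Agent.W275.UB
  Pool.Agent.W193.UB Pool.Agent.W277.UH Pool.Agent.W277.UG Pool.Agent.W277.UC NumberField Filter
  Topology

set_option linter.unusedSectionVars false

section

/-- the field `K = F(t)` has degree one over the subfield `F(t)` -/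
lemma finrank_one_of {K : Type} [Field K] {F : Subfield K} {t : K}
    (htop : ∀ G : Subfield K, F ≤ G → t ∈ G → ∀ x, x ∈ G) :
    FiniteDimensional (IntermediateField.adjoin F {t}) K ∧
      Module.finrank (IntermediateField.adjoin F {t}) K ≤ 1 := by
  have hall : ∀ x : K, x ∈ IntermediateField.adjoin F {t} := by
    intro x
    have h1 := htop (IntermediateField.adjoin F {t}).toSubfield (by
      intro y hy
      exact (IntermediateField.adjoin F {t}).algebraMap_mem (⟨y, hy⟩ : F))
      (IntermediateField.mem_adjoin_simple_self F t) x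
    exact h1
  have hsurj : Function.Surjective (algebraMap (IntermediateField.adjoin F {t}) K) :=
    fun x => ⟨⟨x, hall x⟩, rfl⟩
  have hfin : Module.Finite (IntermediateField.adjoin F {t}) K :=
    Module.Finite.of_surjective (Algebra.linearMap (IntermediateField.adjoin F {t}) K) hsurj
  refine ⟨hfin, ?_⟩
  refine finrank_le_one (1 : K) fun x => ?_
  refine ⟨⟨x, hall x⟩, ?_⟩
  rw [Algebra.smul_def, mul_one]
  rfl

end

theorem t_FAM : S_BDG.{0, 0} → S_FAM := by
  classical
  rintro ⟨N, hN⟩
  refine ⟨fun B d => N 1 B d, ?_⟩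
  intro k _ _ J _ ω d B hd hB m P Q i hmaxP hco hbic hiso
  have hcz0 : CharZero (RF k m) :=
    charZero_of_injective_algebraMap (R := k) (algebraMap k _).injective
  have hinj : Function.Injective (algebraMap (MvPolynomial (Fin m) k) (RF k m)) :=
    IsFractionRing.injective _ _
  have hmax : max (generic P).natDegree (generic Q).natDegree = d := by
    rw [generic, generic, Polynomial.natDegree_map_eq_of_injective hinj,
      Polynomial.natDegree_map_eq_of_injective hinj]
    exact hmaxP
  have hczF : CharZero (others k i) := by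
    constructor
    intro a b hab
    have := congrArg (algebraMap (others k i) (RF k m)) hab
    rw [map_natCast, map_natCast] at this
    exact_mod_cast this
  obtain ⟨hfd, hfr⟩ := finrank_one_of (F := others k i) (gen_sub i)
  have h1 : (PB (AlgebraicClosure (RF k m)) (generic P) (generic Q) d B).encard ≤
      ((N 1 B d : ℕ) : ℕ∞) :=
    hN (others k i) (RF k m) (algebraMap (MvPolynomial (Fin m) k) (RF k m) (MvPolynomial.X i))
      (tr_sub i) hfd 1 B d hfr hd (generic P) (generic Q) hco hmax hbic hiso
  have h2 := fewB_of_encard (by omega) hmax hco B _ h1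
  obtain ⟨s, hM⟩ := monIn_of_good (by omega) hmax hco
  have hcoe : co (generic P) (generic Q) d =
      fun i => algebraMap (MvPolynomial (Fin m) k) (RF k m) (co P Q d i) := by
    rw [co_map]
    rfl
  rw [hcoe] at h2 hM
  have h3 := paramB ω (AlgebraicClosure k) hd (co P Q d) hM h2
  refine Pool.Agent.W275.ND.ratioV ω (ι := Fin (m + 1)) _ ?_
  intro ε hε
  refine (h3 ε hε).mono ?_
  intro w hw hcon
  apply hw
  obtain ⟨g1, ⟨s', g2⟩, g3⟩ := hcon
  have htp : (fun i => MvPolynomial.eval (tp ω w) (co P Q d i)) =
      co (P.map (MvPolynomial.eval (tp ω w))) (Q.map (MvPolynomial.eval (tp ω w))) d := by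
    rw [co_map]
  rw [htp] at g2 g3
  set p := P.map (MvPolynomial.eval (tp ω w)) with hp
  set q := Q.map (MvPolynomial.eval (tp ω w)) with hq
  have hpd : p.natDegree ≤ d := Polynomial.natDegree_map_le.trans ((le_max_left _ _).trans hmaxP.le)
  have hqd : q.natDegree ≤ d := Polynomial.natDegree_map_le.trans ((le_max_right _ _).trans hmaxP.le)
  obtain ⟨hco', hmax'⟩ := of_monIn hpd hqd g2
  have g4 := encard_of_fewB (by omega) hmax' hco' hB _ g3
  refine ⟨g1, hco', hmax', ?_⟩
  have hsub : preperB p q d B ⊆ PB (AlgebraicClosure k) p q d B := by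
    rintro z ⟨hz1, hz2⟩
    refine ⟨hz1, ?_⟩
    intro x hx
    have hint : IsIntegral k x := (Algebra.IsAlgebraic.isAlgebraic (R := k) x).isIntegral
    refine ⟨IntermediateField.adjoin k {x}, IntermediateField.adjoin.finiteDimensional hint, ?_,
      IntermediateField.mem_adjoin_simple_self k x⟩
    rw [IntermediateField.adjoin.finrank hint]
    exact hz2 x hx
  exact (Set.encard_le_encard hsub).trans g4

end Pool.Agent.Y681.BI
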